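import Mathlib

/-!
# Bases of a finite algebra without vanishing structure constants
-/

set_option autoImplicit false

namespace Pool.Agent.N38.AD

open Module

section LI

variable {k : Type*} [Field k] {V : Type*} [AddCommGroup V] [Module k V]

/-- A family which is linearly independent on a set of indices can be changed outside this set such that
it is linearly independent. -/
theorem exists_extension {d : ℕ} [FiniteDimensional k V] (hd : finrank k V = d) :
    ∀ (c : ℕ) (s : Finset (Fin d)) (v : Fin d → V), s.card + c = d → LinearIndepOn k v (s : Set (Fin d)) →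
      ∃ w : Fin d → V, LinearIndependent k w ∧ ∀ i ∈ s, w i = v i := by
  classical
  intro c
  induction c with
  | zero =>
    intro s v hs hv
    have : s = Finset.univ := Finset.eq_univ_of_card s (by simpa using hs)
    subst this
    refine ⟨v, ?_, fun i _ => rfl⟩
    simpa using hv
  | succ c ih =>
    intro s v hs hv
    have hlt : s.card < d := by omega
    obtain ⟨a, ha⟩ : ∃ a, a ∉ s := by
      by_contra hcon
      push Not at hcon
      have : s = Finset.univ := Finset.eq_univ_iff_forall.2 hcon
      rw [this] at hlt
      simp at hlt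
    obtain ⟨x, hx⟩ : ∃ x : V, x ∉ Submodule.span k (v '' (s : Set (Fin d))) := by
      by_contra hcon
      push Not at hcon
      have htop : Submodule.span k (v '' (s : Set (Fin d))) = ⊤ := by
        rw [eq_top_iff]
        exact fun x _ => hcon x
      have h1 := finrank_span_finset_le_card (R := k) (s.image v)
      rw [Finset.coe_image, Set.finrank, htop, finrank_top, hd] at h1
      have h2 := Finset.card_image_le (s := s) (f := v)
      omega
    have hv' : LinearIndepOn k (Function.update v a x) ((insert a s : Finset (Fin d)) : Set (Fin d)) := by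
      rw [Finset.coe_insert]
      have hsame : Set.EqOn (Function.update v a x) v (s : Set (Fin d)) := by
        intro i hi
        have : i ≠ a := fun h => ha (h ▸ hi)
        simp [this]
      have h1 : LinearIndepOn k (Function.update v a x) (s : Set (Fin d)) := hv.congr hsame.symm
      refine h1.insert ?_
      rw [Set.image_congr hsame]
      simpa using hx
    obtain ⟨w, hw, hws⟩ := ih (insert a s) _ (by rw [Finset.card_insert_of_notMem ha]; omega) hv'
    refine ⟨w, hw, fun i hi => ?_⟩
    rw [hws i (Finset.mem_insert_of_mem hi)]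
    have : i ≠ a := fun h => ha (h ▸ hi)
    simp [this]

theorem exists_extension' {d : ℕ} [FiniteDimensional k V] (hd : finrank k V = d)
    (s : Finset (Fin d)) (v : Fin d → V) (hv : LinearIndepOn k v (s : Set (Fin d))) :
    ∃ w : Fin d → V, LinearIndependent k w ∧ ∀ i ∈ s, w i = v i := by
  have := s.card_le_univ
  rw [Fintype.card_fin] at this
  exact exists_extension hd (d - s.card) s v (by omega) hv

end LI

section Alg

variable {k : Type*} [Field k] {A : Type*} [CommRing A] [Algebra k A]

/-- linear independence of one and `x` -/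
theorem one_pair {d : ℕ} (hd : finrank k A = d) [FiniteDimensional k A] [Nontrivial A]
    (h2 : 2 ≤ d) : ∃ x : A, ∀ s t : k, s • (1 : A) + t • x = 0 → s = 0 ∧ t = 0 := by
  classical
  obtain ⟨w, hw, h0⟩ := exists_extension' (k := k) hd {(⟨0, by omega⟩ : Fin d)} (fun _ => (1 : A))
    (by
      rw [linearIndepOn_finset_iff]
      intro f hf i hi
      rw [Finset.sum_singleton] at hf
      rw [Finset.mem_singleton] at hi
      subst hi
      exact (smul_eq_zero.1 hf).resolve_right one_ne_zero)
  have h0' := h0 _ (Finset.mem_singleton_self _)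
  refine ⟨w ⟨1, by omega⟩, fun s t hst => ?_⟩
  rw [← h0'] at hst
  have h1 : LinearIndependent k ![w ⟨0, by omega⟩, w ⟨1, by omega⟩] := by
    have := hw.comp ![(⟨0, by omega⟩ : Fin d), ⟨1, by omega⟩] (by
      intro a b hab
      fin_cases a <;> fin_cases b <;> simp_all)
    have he : ![w ⟨0, by omega⟩, w ⟨1, by omega⟩] =
        w ∘ ![(⟨0, by omega⟩ : Fin d), ⟨1, by omega⟩] := by
      ext i
      fin_cases i <;> rfl
    rw [he]
    exact this
  exact LinearIndependent.pair_iff.1 h1 s t hst

theorem one_triple {d : ℕ} (hd : finrank k A = d) [FiniteDimensional k A] [Nontrivial A]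
    (h3 : 3 ≤ d) : ∃ x z : A, ∀ s t u : k, s • (1 : A) + t • x + u • z = 0 →
      s = 0 ∧ t = 0 ∧ u = 0 := by
  classical
  obtain ⟨w, hw, h0⟩ := exists_extension' (k := k) hd {(⟨0, by omega⟩ : Fin d)} (fun _ => (1 : A))
    (by
      rw [linearIndepOn_finset_iff]
      intro f hf i hi
      rw [Finset.sum_singleton] at hf
      rw [Finset.mem_singleton] at hi
      subst hi
      exact (smul_eq_zero.1 hf).resolve_right one_ne_zero)
  have h0' := h0 _ (Finset.mem_singleton_self _)
  refine ⟨w ⟨1, by omega⟩, w ⟨2, by omega⟩, fun s t u hst => ?_⟩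
  rw [← h0'] at hst
  have h1 : LinearIndependent k ![w ⟨0, by omega⟩, w ⟨1, by omega⟩, w ⟨2, by omega⟩] := by
    have := hw.comp ![(⟨0, by omega⟩ : Fin d), ⟨1, by omega⟩, ⟨2, by omega⟩] (by
      intro a b hab
      fin_cases a <;> fin_cases b <;> simp_all)
    have he : ![w ⟨0, by omega⟩, w ⟨1, by omega⟩, w ⟨2, by omega⟩] =
        w ∘ ![(⟨0, by omega⟩ : Fin d), ⟨1, by omega⟩, ⟨2, by omega⟩] := by
      ext i
      fin_cases i <;> rfl
    rw [he]
    exact this
  have h2 := Fintype.linearIndependent_iff.1 h1 ![s, t, u] (by
    simp only [Fin.sum_univ_succ, Finset.univ_unique, Finset.sum_singleton]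
    simpa [add_assoc] using hst)
  exact ⟨h2 0, h2 1, h2 2⟩

/-- some element is linearly independent of its square -/
theorem exists_square [Infinite k] {d : ℕ} (hd : finrank k A = d) [FiniteDimensional k A]
    [Nontrivial A] (h2 : 2 ≤ d) : ∃ y : A, ∀ s t : k, s • y + t • (y * y) = 0 → s = 0 ∧ t = 0 := by
  classical
  by_contra hcon
  push Not at hcon
  obtain ⟨x, hx⟩ := one_pair (k := k) (A := A) hd h2
  -- every nonzero element is proportional to its square
  have hsq : ∀ y : A, y ≠ 0 → ∃ lam : k, y * y = lam • y := by
    intro y hy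
    obtain ⟨s, t, hst, hne⟩ := hcon y
    by_cases ht : t = 0
    · subst ht
      simp only [zero_smul, add_zero] at hst
      have hs := (smul_eq_zero.1 hst).resolve_right hy
      exact absurd rfl (hne hs)
    · refine ⟨-(t⁻¹ * s), ?_⟩
      have h : t • (y * y) = -(s • y) := by
        rw [eq_neg_iff_add_eq_zero, add_comm]
        exact hst
      calc y * y = t⁻¹ • t • (y * y) := by rw [smul_smul, inv_mul_cancel₀ ht, one_smul]
        _ = -(t⁻¹ * s) • y := by rw [h, smul_neg, smul_smul, neg_smul]
  have key : ∀ z : A, (∀ s t : k, s • (1 : A) + t • z = 0 → s = 0 ∧ t = 0) → z * z = -z := by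
    intro z hz
    have hz0 : z ≠ 0 := by
      rintro rfl
      have := (hz 0 1 (by simp)).2
      exact one_ne_zero this
    have hz1 : 1 + z ≠ 0 := by
      intro h
      have := (hz 1 1 (by simpa using h)).2
      exact one_ne_zero this
    obtain ⟨α, hα⟩ := hsq z hz0
    obtain ⟨β, hβ⟩ := hsq (1 + z) hz1
    have h := hz (1 - β) (2 + α - β) (by
      have : (1 + z) * (1 + z) - β • (1 + z) = 0 := by rw [hβ, sub_self]
      rw [← this, show (1 + z) * (1 + z) = 1 + 2 * z + z * z by ring, hα]
      simp only [Algebra.smul_def, map_sub, map_add, map_one, map_ofNat]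
      ring)
    have hα1 : α = -1 := by linear_combination h.2 - h.1
    rw [hα, hα1, neg_one_smul]
  obtain ⟨c, hc⟩ := Infinite.exists_notMem_finset ({0, 1} : Finset k)
  simp only [Finset.mem_insert, Finset.mem_singleton, not_or] at hc
  have e1 := key x hx
  have e2 := key (c • x) (by
    intro s t hst
    rw [smul_smul] at hst
    have := hx s (t * c) hst
    exact ⟨this.1, (mul_eq_zero.1 this.2).resolve_right hc.1⟩)
  rw [smul_mul_smul_comm, e1, smul_neg, neg_inj] at e2
  have h3 := (hx 0 (c * c - c) (by rw [sub_smul, e2]; simp)).2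
  have h4 : c * (c - 1) = 0 := by linear_combination h3
  rcases mul_eq_zero.1 h4 with h | h
  · exact hc.1 h
  · exact hc.2 (sub_eq_zero.1 h)

/-- two elements which are linearly independent together with their product -/
theorem exists_product {d : ℕ} (hd : finrank k A = d) [FiniteDimensional k A]
    [Nontrivial A] (h3 : 3 ≤ d) :
    ∃ y z : A, ∀ s t u : k, s • y + t • z + u • (y * z) = 0 → s = 0 ∧ t = 0 ∧ u = 0 := by
  classical
  obtain ⟨x, z, hx⟩ := one_triple (k := k) (A := A) hd h3
  by_cases hspan : ∃ p q r : k, x * z = p • (1 : A) + q • x + r • z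
  · obtain ⟨p, q, r, hpqr⟩ := hspan
    obtain ⟨a, b, hab⟩ : ∃ a b : k, a * b + q * a + r * b - p ≠ 0 := by
      by_contra hcon
      push Not at hcon
      have h00 := hcon 0 0
      have h10 := hcon 1 0
      have h01 := hcon 0 1
      have h11 := hcon 1 1
      have : (1 : k) = 0 := by linear_combination h11 - h10 - h01 + h00
      exact one_ne_zero this
    refine ⟨x + a • 1, z + b • 1, fun s t u hst => ?_⟩
    have h := hx (s * a + t * b + u * (p + a * b)) (s + u * (q + b)) (t + u * (r + a)) (by
      rw [← hst]
      rw [show (x + a • (1 : A)) * (z + b • (1 : A)) = x * z + b • x + a • z + (a * b) • (1 : A) by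
        simp only [Algebra.smul_def, map_mul]
        ring, hpqr]
      simp only [Algebra.smul_def, map_mul, map_add]
      ring)
    obtain ⟨e1, e2, e3⟩ := h
    have hu : u * (a * b + q * a + r * b - p) = 0 := by
      linear_combination a * e2 + b * e3 - e1
    have hu0 : u = 0 := (mul_eq_zero.1 hu).resolve_right hab
    subst hu0
    refine ⟨by linear_combination e2, by linear_combination e3, rfl⟩
  · refine ⟨x, z, fun s t u hst => ?_⟩
    by_cases hu : u = 0
    · subst hu
      have := hx 0 s t (by simpa using hst)
      exact ⟨this.2.1, this.2.2, rfl⟩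
    · exfalso
      apply hspan
      refine ⟨0, -(u⁻¹ * s), -(u⁻¹ * t), ?_⟩
      have h : u • (x * z) = -(s • x + t • z) := by
        rw [eq_neg_iff_add_eq_zero, add_comm]
        exact hst
      calc x * z = u⁻¹ • u • (x * z) := by rw [smul_smul, inv_mul_cancel₀ hu, one_smul]
        _ = _ := by
          rw [h, smul_neg, smul_add, smul_smul, smul_smul]
          simp only [neg_smul, zero_smul, zero_add]
          abel

/-- A family `b` such that `b` becomes linearly independent if `b l` is replaced by `b i * b j`. -/
theorem exists_good [Infinite k] {d : ℕ} (hd : finrank k A = d) [FiniteDimensional k A]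
    [Nontrivial A] (i j l : Fin d) :
    ∃ b : Fin d → A, LinearIndependent k (Function.update b l (b i * b j)) := by
  classical
  have one : ∀ m : Fin d, ∃ w : Fin d → A, LinearIndependent k w ∧ w m = 1 := by
    intro m
    obtain ⟨w, hw, h0⟩ := exists_extension' (k := k) hd {m} (fun _ => (1 : A)) (by
      rw [linearIndepOn_finset_iff]
      intro f hf i hi
      rw [Finset.sum_singleton] at hf
      rw [Finset.mem_singleton] at hi
      subst hi
      exact (smul_eq_zero.1 hf).resolve_right one_ne_zero)
    exact ⟨w, hw, h0 m (Finset.mem_singleton_self _)⟩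
  by_cases hli : l = i
  · subst hli
    obtain ⟨w, hw, h1⟩ := one j
    refine ⟨w, ?_⟩
    rw [h1, mul_one, Function.update_eq_self]
    exact hw
  by_cases hlj : l = j
  · subst hlj
    obtain ⟨w, hw, h1⟩ := one i
    refine ⟨w, ?_⟩
    rw [h1, one_mul, Function.update_eq_self]
    exact hw
  by_cases hij : i = j
  · subst hij
    have h2 : 2 ≤ d := by
      have : ({i, l} : Finset (Fin d)).card ≤ d := by
        simpa using Finset.card_le_univ ({i, l} : Finset (Fin d))
      rw [Finset.card_pair (Ne.symm hli)] at this
      exact this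
    obtain ⟨y, hy⟩ := exists_square (k := k) (A := A) hd h2
    obtain ⟨w, hw, h0⟩ := exists_extension' (k := k) hd {i, l}
      (fun m => if m = i then y else y * y) (by
      rw [linearIndepOn_finset_iff]
      intro f hf
      rw [Finset.sum_pair (Ne.symm hli)] at hf
      simp only [if_true, if_neg hli] at hf
      have := hy _ _ hf
      intro m hm
      rw [Finset.mem_insert, Finset.mem_singleton] at hm
      rcases hm with rfl | rfl
      · exact this.1
      · exact this.2)
    have hwi := h0 i (by simp)
    have hwl := h0 l (by simp)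
    simp only [if_true, if_neg hli] at hwi hwl
    refine ⟨w, ?_⟩
    rw [hwi, ← hwl, Function.update_eq_self]
    exact hw
  · have hc : ({i, j, l} : Finset (Fin d)).card = 3 :=
      Finset.card_eq_three.2 ⟨i, j, l, hij, Ne.symm hli, Ne.symm hlj, rfl⟩
    have h3 : 3 ≤ d := by
      have : ({i, j, l} : Finset (Fin d)).card ≤ d := by
        simpa using Finset.card_le_univ ({i, j, l} : Finset (Fin d))
      rw [hc] at this
      exact this
    obtain ⟨y, z, hyz⟩ := exists_product (k := k) (A := A) hd h3
    obtain ⟨w, hw, h0⟩ := exists_extension' (k := k) hd {i, j, l}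
      (fun m => if m = i then y else if m = j then z else y * z) (by
      rw [linearIndepOn_finset_iff]
      intro f hf
      rw [Finset.sum_insert (by simp [hij, Ne.symm hli]), Finset.sum_pair (Ne.symm hlj)] at hf
      simp only [if_true, if_neg hli, if_neg hlj, if_neg (Ne.symm hij)] at hf
      rw [← add_assoc] at hf
      have := hyz _ _ _ hf
      intro m hm
      rw [Finset.mem_insert, Finset.mem_insert, Finset.mem_singleton] at hm
      rcases hm with rfl | rfl | rfl
      · exact this.1
      · exact this.2.1
      · exact this.2.2)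
    have hwi := h0 i (by simp)
    have hwj := h0 j (by simp)
    have hwl := h0 l (by simp)
    simp only [if_true, if_neg hli, if_neg hlj, if_neg (Ne.symm hij)] at hwi hwj hwl
    refine ⟨w, ?_⟩
    rw [hwi, hwj, ← hwl, Function.update_eq_self]
    exact hw

/-- the polynomial whose nonvanishing says that the structure constant is not zero -/
noncomputable def F {d : ℕ} (e : Basis (Fin d) k A) (i j l : Fin d) :
    MvPolynomial (Fin d × Fin d) k :=
  (Matrix.of fun a r => if a = l then
    ∑ p, ∑ q, MvPolynomial.X (i, p) * MvPolynomial.X (j, q) *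
      MvPolynomial.C (e.repr (e p * e q) r) else MvPolynomial.X (a, r)).det

theorem eval_F {d : ℕ} (e : Basis (Fin d) k A) (i j l : Fin d) (b : Fin d → A) :
    MvPolynomial.eval (fun x : Fin d × Fin d => e.repr (b x.1) x.2) (F e i j l) =
      e.det (Function.update b l (b i * b j)) := by
  rw [F, RingHom.map_det, Basis.det_apply, ← Matrix.det_transpose]
  congr 1
  ext a r
  rw [Matrix.transpose_apply, RingHom.mapMatrix_apply, Matrix.map_apply, Matrix.of_apply,
    Basis.toMatrix_apply]
  by_cases har : r = l
  · subst har
    rw [if_pos rfl, Function.update_self]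
    have hb : b i * b j = ∑ p, ∑ q, (e.repr (b i) p * e.repr (b j) q) • (e p * e q) := by
      conv_lhs => rw [← e.sum_repr (b i), ← e.sum_repr (b j)]
      rw [Finset.sum_mul_sum]
      refine Finset.sum_congr rfl fun p _ => Finset.sum_congr rfl fun q _ => ?_
      rw [smul_mul_smul_comm]
    rw [hb]
    simp only [map_sum, map_smul, map_mul, MvPolynomial.eval_X, MvPolynomial.eval_C,
      Finsupp.coe_finsetSum, Finset.sum_apply, Finsupp.smul_apply, smul_eq_mul]
  · rw [if_neg har, Function.update_of_ne har, MvPolynomial.eval_X]

theorem F_ne_zero [Infinite k] {d : ℕ} (e : Basis (Fin d) k A) [Nontrivial A] (i j l : Fin d) :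
    F e i j l ≠ 0 := by
  have : FiniteDimensional k A := Module.Finite.of_basis e
  have hd : finrank k A = d := by
    rw [finrank_eq_card_basis e, Fintype.card_fin]
  obtain ⟨b, hb⟩ := exists_good (k := k) (A := A) hd i j l
  intro h0
  have h1 := eval_F e i j l b
  rw [h0, map_zero] at h1
  have h2 := (Basis.is_basis_iff_det e).1 ⟨hb, hb.span_eq_top_of_card_eq_finrank' (by
    rw [Fintype.card_fin, hd])⟩
  rw [← h1] at h2
  exact not_isUnit_zero h2

/-- **Generic bases.** A nonzero finite-dimensional algebra over an infinite field has a basis all of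
whose structure constants are different from zero. -/
theorem exists_generic_basis [Infinite k] {d : ℕ} (e : Basis (Fin d) k A) [Nontrivial A] :
    ∃ b : Basis (Fin d) k A, ∀ i j l, b.repr (b i * b j) l ≠ 0 := by
  classical
  have hne : (∏ x : Fin d × Fin d × Fin d, F e x.1 x.2.1 x.2.2) *
      (Matrix.of fun a r => (MvPolynomial.X (a, r) : MvPolynomial (Fin d × Fin d) k)).det ≠ 0 := by
    refine mul_ne_zero (Finset.prod_ne_zero_iff.2 fun x _ => F_ne_zero e _ _ _) ?_
    intro h0
    have h1 : MvPolynomial.eval (fun x : Fin d × Fin d => e.repr (e x.1) x.2)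
      (Matrix.of fun a r => (MvPolynomial.X (a, r) : MvPolynomial (Fin d × Fin d) k)).det = 1 := by
      rw [RingHom.map_det]
      have : ((MvPolynomial.eval fun x : Fin d × Fin d => e.repr (e x.1) x.2).mapMatrix
          (Matrix.of fun a r => (MvPolynomial.X (a, r) : MvPolynomial (Fin d × Fin d) k))) =
          (1 : Matrix (Fin d) (Fin d) k) := by
        ext a r
        rw [RingHom.mapMatrix_apply, Matrix.map_apply, Matrix.of_apply, MvPolynomial.eval_X,
          Basis.repr_self, Finsupp.single_apply, Matrix.one_apply]
      rw [this, Matrix.det_one]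
    rw [h0, map_zero] at h1
    exact zero_ne_one h1
  obtain ⟨g, hg⟩ : ∃ g : Fin d × Fin d → k, MvPolynomial.eval g
      ((∏ x : Fin d × Fin d × Fin d, F e x.1 x.2.1 x.2.2) *
      (Matrix.of fun a r => (MvPolynomial.X (a, r) : MvPolynomial (Fin d × Fin d) k)).det) ≠ 0 := by
    by_contra hcon
    push Not at hcon
    exact hne (MvPolynomial.funext fun g => by rw [hcon g, map_zero])
  rw [map_mul, map_prod] at hg
  have hg1 := left_ne_zero_of_mul hg
  have hg2 := right_ne_zero_of_mul hg
  -- the family with the coordinates `g`
  let b : Fin d → A := fun i => ∑ p, g (i, p) • e p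
  have hbr : ∀ i p, e.repr (b i) p = g (i, p) := by
    intro i p
    simp only [b]
    rw [e.repr_sum_self]
  have hgb : (fun x : Fin d × Fin d => e.repr (b x.1) x.2) = g := by
    ext x
    rw [hbr]
  have hdet : e.det b ≠ 0 := by
    rw [RingHom.map_det] at hg2
    rw [Basis.det_apply, ← Matrix.det_transpose]
    convert hg2 using 2
    ext a r
    rw [Matrix.transpose_apply, Basis.toMatrix_apply, RingHom.mapMatrix_apply, Matrix.map_apply,
      Matrix.of_apply, MvPolynomial.eval_X, hbr]
  have hbas := (Basis.is_basis_iff_det e).2 (Ne.isUnit hdet)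
  let B : Basis (Fin d) k A := Basis.mk hbas.1 hbas.2.ge
  have hB : ∀ i, B i = b i := fun i => by rw [Basis.mk_apply]
  refine ⟨B, fun i j l h0 => ?_⟩
  have hF : MvPolynomial.eval g (F e i j l) ≠ 0 := by
    have := Finset.prod_ne_zero_iff.1 hg1 (i, j, l) (Finset.mem_univ _)
    exact this
  rw [← hgb, eval_F] at hF
  -- the updated family is linearly dependent
  have hLI := ((Basis.is_basis_iff_det e).2 (Ne.isUnit hF)).1
  have hmem : b i * b j ∈ Submodule.span k (b '' {m | m ≠ l}) := by
    rw [← hB i, ← hB j, ← B.sum_repr (B i * B j)]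
    refine Submodule.sum_mem _ fun m _ => ?_
    by_cases hm : m = l
    · subst hm
      rw [h0, zero_smul]
      exact Submodule.zero_mem _
    · exact Submodule.smul_mem _ _ (Submodule.subset_span ⟨m, hm, (hB m).symm⟩)
  have himg : (Function.update b l (b i * b j)) '' {m | m ≠ l} = b '' {m | m ≠ l} :=
    Set.image_congr fun m hm => Function.update_of_ne hm _ _
  have h3 := hLI.notMem_span_image (s := {m | m ≠ l}) (x := l) (by simp)
  rw [himg, Function.update_self] at h3
  exact h3 hmem

end Alg

end Pool.Agent.N38.AD
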