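import Mathlib
import Pool.Agent.N38.AD.Gen

/-!
# Finite free algebras over a ring of power series: bases with invertible structure constants
-/

set_option autoImplicit false

namespace Pool.Agent.N38.AD

open Module PowerSeries

variable {k : Type*} [Field k] {B : Type*} [CommRing B] [Algebra k⟦X⟧ B]
  {A : Type*} [CommRing A] [Algebra k A] (π : B →+* A)

/-- The special fibre. -/
structure IsSpecialFibre : Prop where
  surj : Function.Surjective π
  ker : ∀ a, π a = 0 → ∃ b, a = (X : k⟦X⟧) • b
  map_X : π (algebraMap k⟦X⟧ B X) = 0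
  map_C : ∀ c : k, π (algebraMap k⟦X⟧ B (C c)) = algebraMap k A c

variable {π}

theorem map_alg (h : IsSpecialFibre (k := k) π) (f : k⟦X⟧) :
    π (algebraMap k⟦X⟧ B f) = algebraMap k A (constantCoeff f) := by
  obtain ⟨g, hg⟩ : ∃ g, f = C (constantCoeff f) + X * g := by
    have h1 : constantCoeff (f - C (constantCoeff f)) = 0 := by simp
    obtain ⟨g, hg⟩ := X_dvd_iff.2 h1
    exact ⟨g, by rw [← hg]; ring⟩
  conv_lhs => rw [hg]
  rw [map_add, map_add, h.map_C, map_mul, map_mul, h.map_X, zero_mul, add_zero]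

theorem map_smul' (h : IsSpecialFibre (k := k) π) (f : k⟦X⟧) (b : B) :
    π (f • b) = constantCoeff f • π b := by
  rw [Algebra.smul_def, map_mul, map_alg h, Algebra.smul_def]

/-- a basis induces a basis of the special fibre -/
theorem exists_basis {d : ℕ} (h : IsSpecialFibre (k := k) π) (E : Basis (Fin d) k⟦X⟧ B) :
    ∃ e : Basis (Fin d) k A, (∀ i, e i = π (E i)) ∧
      ∀ b i, e.repr (π b) i = constantCoeff (E.repr b i) := by
  have hli : LinearIndependent k fun i => π (E i) := by
    rw [Fintype.linearIndependent_iff]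
    intro g hg i
    have h1 : π (∑ i, C (g i) • E i) = 0 := by
      rw [map_sum, ← hg]
      refine Finset.sum_congr rfl fun i _ => ?_
      rw [map_smul' h, constantCoeff_C]
    obtain ⟨b, hb⟩ := h.ker _ h1
    have h2 : E.repr (∑ i, C (g i) • E i) i = E.repr ((X : k⟦X⟧) • b) i := by rw [hb]
    rw [E.repr_sum_self, map_smul, Finsupp.smul_apply, smul_eq_mul] at h2
    have h3 := congrArg constantCoeff h2
    simpa using h3
  have hsp : ⊤ ≤ Submodule.span k (Set.range fun i => π (E i)) := by
    intro a _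
    obtain ⟨b, rfl⟩ := h.surj a
    rw [← E.sum_repr b, map_sum]
    refine Submodule.sum_mem _ fun i _ => ?_
    rw [map_smul' h]
    exact Submodule.smul_mem _ _ (Submodule.subset_span ⟨i, rfl⟩)
  have he : ∀ i, (Basis.mk hli hsp) i = π (E i) := fun i => by rw [Basis.mk_apply]
  refine ⟨Basis.mk hli hsp, he, fun b i => ?_⟩
  conv_lhs => rw [← E.sum_repr b, map_sum]
  rw [Finset.sum_congr rfl fun i _ => by rw [map_smul' h, ← he i], Basis.repr_sum_self]

/-- **Invertible structure constants.** A finite free algebra over `k⟦X⟧`, `k` an infinite field, has a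
basis all of whose structure constants have a nonzero constant coefficient. -/
theorem exists_unit_basis [Infinite k] {d : ℕ} (h : IsSpecialFibre (k := k) π)
    (E : Basis (Fin d) k⟦X⟧ B) :
    ∃ e : Basis (Fin d) k⟦X⟧ B, ∀ i j l, constantCoeff (e.repr (e i * e j) l) ≠ 0 := by
  rcases Nat.eq_zero_or_pos d with hd | hd
  · subst hd
    exact ⟨E, fun i => i.elim0⟩
  obtain ⟨e0, he0, hrepr⟩ := exists_basis h E
  have : Nontrivial A := ⟨⟨e0 ⟨0, hd⟩, 0, e0.ne_zero _⟩⟩
  obtain ⟨b, hb⟩ := exists_generic_basis e0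
  choose β hβ using fun i => h.surj (b i)
  have hdet : IsUnit (E.det β) := by
    rw [isUnit_iff_constantCoeff, Basis.det_apply, RingHom.map_det]
    have h1 : (constantCoeff (R := k)).mapMatrix (E.toMatrix β) = e0.toMatrix b := by
      ext i j
      rw [RingHom.mapMatrix_apply, Matrix.map_apply, Basis.toMatrix_apply, Basis.toMatrix_apply,
        ← hrepr, hβ]
    rw [h1, ← Basis.det_apply]
    exact ((Basis.is_basis_iff_det e0).1 ⟨b.linearIndependent, b.span_eq⟩)
  have hbas := (Basis.is_basis_iff_det E).2 hdet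
  let e : Basis (Fin d) k⟦X⟧ B := Basis.mk hbas.1 hbas.2.ge
  have he : ∀ i, e i = β i := fun i => by rw [Basis.mk_apply]
  refine ⟨e, fun i j l => ?_⟩
  have h1 : b i * b j = ∑ m, constantCoeff (e.repr (e i * e j) m) • b m := by
    have h2 : π (e i * e j) = π (∑ m, e.repr (e i * e j) m • e m) := by rw [e.sum_repr]
    rw [map_mul, he, he, hβ, hβ, map_sum] at h2
    rw [h2]
    refine Finset.sum_congr rfl fun m _ => ?_
    rw [map_smul' h, he m, hβ]
    simp only [he]
  have h3 : b.repr (b i * b j) l = constantCoeff (e.repr (e i * e j) l) := by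
    rw [h1, b.repr_sum_self]
  rw [← h3]
  exact hb i j l

end Pool.Agent.N38.AD
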